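import Pool.Agent.H32.ConjG

namespace Pool.Agent.Results.MP_60077b_lc.Arbitrary

open Pool.Agent.H32.Conj

theorem result : ¬ ∃ f : ℕ × List (List ℕ) × List (List ℕ) → Bool, Computable f ∧
    ∀ m X Y, Inst m X Y → (f (m, X, Y) = true ↔ ∃ Z : Language ℕ, Conj m X Y Z) := by
  simpa using undec (fun _ => True) fun _ _ => trivial

end Pool.Agent.Results.MP_60077b_lc.Arbitrary
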